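import Mathlib

/-! Asymptotically Ramanujan tuples. -/

namespace Pool.Agent.MP_9bb777_an.ZO

open MeasureTheory

/-- The tuple `b` is asymptotically Ramanujan: for every `ε > 0` the quadratic form of
`f ↦ ∑ f (b j ·) + f ((b j)⁻¹ ·)` is bounded by `2 √(2 r - 1) + ε` on the mean-zero square
integrable functions orthogonal to finitely many functions. -/
def AR {K : Type} [Group K] [MeasurableSpace K] (μ : Measure K) {r : ℕ} (b : Fin r → K) : Prop :=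
  ∀ ε : ℝ, 0 < ε →
    ∃ (n : ℕ) (g : Fin n → K → ℂ), (∀ i, MemLp (g i) 2 μ) ∧
      ∀ f : K → ℂ, MemLp f 2 μ → ∫ x, f x ∂μ = 0 →
        (∀ i, ∫ x, f x * starRingEnd ℂ (g i x) ∂μ = 0) →
        |(∫ x, (∑ j, (f (b j * x) + f ((b j)⁻¹ * x))) * starRingEnd ℂ (f x) ∂μ).re|
          ≤ (2 * Real.sqrt (2 * (r : ℝ) - 1) + ε) * ∫ x, ‖f x‖ ^ 2 ∂μ

end Pool.Agent.MP_9bb777_an.ZO
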