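import Mathlib

/-! Dichotomies (almost everywhere or almost nowhere) on products, circles and planes. -/

namespace Pool.Agent.MP_9bb777_an.ZO

open MeasureTheory Set Filter Complex Function
open scoped Real

/-- a predicate holds almost everywhere or almost nowhere -/
def Di {X : Type*} [MeasurableSpace X] (μ : Measure X) (p : X → Prop) : Prop :=
  (∀ᵐ x ∂μ, p x) ∨ (∀ᵐ x ∂μ, ¬p x)

section
variable {X Y Z : Type*} [MeasurableSpace X] [MeasurableSpace Y] [MeasurableSpace Z]

lemma Di.comp {μ : Measure X} {ν : Measure Y} {f : X → Y} {p : Y → Prop}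
    (hf : Measure.QuasiMeasurePreserving f μ ν) (h : Di ν p) : Di μ fun x => p (f x) :=
  h.imp hf.ae hf.ae

lemma Di.congr {μ : Measure X} {p q : X → Prop} (h : Di μ p) (e : ∀ᵐ x ∂μ, p x ↔ q x) :
    Di μ q := by
  rcases h with h | h
  · left; filter_upwards [h, e] with x a b using b.mp a
  · right; filter_upwards [h, e] with x a b using fun c => a (b.mpr c)

lemma meas_ae (ν : Measure Z) [SFinite ν] {p : Y → Z → Prop}
    (hp : MeasurableSet {x : Y × Z | p x.1 x.2}) : MeasurableSet {y | ∀ᵐ z ∂ν, p y z} :=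
  measurable_measure_prodMk_left (ν := ν) hp.compl (measurableSet_singleton 0)

lemma di_prod (μ : Measure Y) (ν : Measure Z) [SFinite μ] [SFinite ν] {p : Y → Z → Prop}
    (hp : MeasurableSet {x : Y × Z | p x.1 x.2}) (h1 : ∀ᵐ y ∂μ, Di ν (p y))
    (h2 : ∀ᵐ z ∂ν, Di μ fun y => p y z) :
    (∀ᵐ y ∂μ, ∀ᵐ z ∂ν, p y z) ∨ (∀ᵐ y ∂μ, ∀ᵐ z ∂ν, ¬p y z) := by
  by_cases hν : ν = 0
  · left; simp [hν]
  have := ae_neBot.mpr hν
  have m1 : MeasurableSet {x : Y × Z | ∀ᵐ z ∂ν, p x.1 z} := measurable_fst (meas_ae ν hp)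
  have m0 : MeasurableSet {x : Y × Z | ∀ᵐ z ∂ν, ¬p x.1 z} :=
    measurable_fst (meas_ae ν (p := fun y z => ¬p y z) hp.compl)
  have k : ∀ᵐ y ∂μ, ∀ᵐ z ∂ν, ((∀ᵐ z ∂ν, p y z) → p y z) ∧ ((∀ᵐ z ∂ν, ¬p y z) → ¬p y z) := by
    refine ae_of_all _ fun y => Eventually.and ?_ ?_
    · by_cases h : ∀ᵐ z ∂ν, p y z
      · filter_upwards [h] with z hz using fun _ => hz
      · exact ae_of_all _ fun z h' => absurd h' h
    · by_cases h : ∀ᵐ z ∂ν, ¬p y z
      · filter_upwards [h] with z hz using fun _ => hz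
      · exact ae_of_all _ fun z h' => absurd h' h
  rw [Measure.ae_ae_comm (p := fun y z => ((∀ᵐ z ∂ν, p y z) → p y z) ∧
    ((∀ᵐ z ∂ν, ¬p y z) → ¬p y z)) ((m1.imp hp).inter (m0.imp hp.compl))] at k
  obtain ⟨z, hz, hd | hd⟩ := (k.and h2).exists
  · left
    filter_upwards [hz, hd, h1] with y a b c using c.resolve_right fun d => a.2 d b
  · right
    filter_upwards [hz, hd, h1] with y a b c using c.resolve_left fun d => b (a.1 d)

lemma di_pi (μ : Measure X) [IsProbabilityMeasure μ] (n : ℕ) : ∀ S : Set (Fin n → X),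
    MeasurableSet S → (∀ i, ∀ᵐ a ∂(Measure.pi fun _ : Fin n => μ),
      Di μ fun x => update a i x ∈ S) → Di (Measure.pi fun _ : Fin n => μ) (· ∈ S) := by
  induction n with
  | zero =>
    intro S _ _
    by_cases h : (default : Fin 0 → X) ∈ S
    · exact Or.inl (ae_of_all _ fun a => by rwa [Subsingleton.elim a default])
    · exact Or.inr (ae_of_all _ fun a => by rwa [Subsingleton.elim a default])
  | succ n ih =>
    intro S hS h
    set e := MeasurableEquiv.piFinSuccAbove (fun _ : Fin (n + 1) => X) 0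
    have mp := measurePreserving_piFinSuccAbove (fun _ : Fin (n + 1) => μ) 0
    have he : ∀ y a, e.symm (y, a) = Fin.cons y a := fun y a => Fin.insertNth_zero' y a
    have hp : MeasurableSet {x : X × (Fin n → X) | (Fin.cons x.1 x.2 : Fin (n + 1) → X) ∈ S} := by
      convert e.symm.measurable hS using 1
      ext x; simp [← he]
    have h' : ∀ i, ∀ᵐ y ∂μ, ∀ᵐ a ∂(Measure.pi fun _ : Fin n => μ),
        Di μ fun x => update (Fin.cons y a : Fin (n + 1) → X) i x ∈ S := fun i => by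
      have := Measure.ae_ae_of_ae_prod (mp.symm.quasiMeasurePreserving.ae (h i))
      simpa only [← he] using this
    have h1 : ∀ᵐ y ∂μ, Di (Measure.pi fun _ : Fin n => μ)
        fun a => (Fin.cons y a : Fin (n + 1) → X) ∈ S := by
      filter_upwards [ae_all_iff.mpr h'] with y hy
      refine ih {a | (Fin.cons y a : Fin (n + 1) → X) ∈ S}
        (measurable_prodMk_left (x := y) hp) fun i => ?_
      filter_upwards [hy i.succ] with a ha
      simp only [← Fin.cons_update] at ha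
      exact ha
    obtain ⟨y, hy⟩ := (h' 0).exists
    simp only [Fin.update_cons_zero] at hy
    have hc : ∀ a : Fin (n + 1) → X, Fin.cons (e a).1 (e a).2 = a := fun a => by
      rw [← he]; exact e.symm_apply_apply a
    rcases di_prod μ _ hp h1 hy with k | k
    · left
      have := mp.quasiMeasurePreserving.ae ((Measure.ae_prod_iff_ae_ae hp).mpr k)
      filter_upwards [this] with a ha
      rwa [hc] at ha
    · right
      have := mp.quasiMeasurePreserving.ae ((Measure.ae_prod_iff_ae_ae hp.compl).mpr k)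
      filter_upwards [this] with a ha
      change ¬_ ∈ S at ha
      rwa [hc] at ha

end

lemma ae_lin {E F : Type} [NormedAddCommGroup E] [NormedSpace ℝ E] [MeasureSpace E]
    [BorelSpace E] [LocallyCompactSpace E] [(volume : Measure E).IsAddHaarMeasure]
    [NormedAddCommGroup F] [NormedSpace ℝ F] [MeasureSpace F] [BorelSpace F]
    [(volume : Measure F).IsAddHaarMeasure] (L : E →ₗ[ℝ] F) (hL : Surjective L)
    {p : F → Prop} (h : ∀ᵐ y, p y) : ∀ᵐ x, p (L x) := by
  obtain ⟨t, ht, hm, h0⟩ := exists_measurable_superset_of_null (ae_iff.mp h)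
  have := (ae_comp_linearMap_mem_iff L volume volume hL hm.compl).mpr (by simpa [ae_iff] using h0)
  filter_upwards [this] with x hx
  by_contra hc
  exact hx (ht hc)

lemma ae_mul {c : ℂ} (hc : c ≠ 0) {q : ℂ → Prop} (h : ∀ᵐ z, q z) : ∀ᵐ z, q (c * z) :=
  ae_lin (LinearMap.mulLeft ℝ c) (mul_left_surjective₀ hc) h

lemma di_circ [Fact (0 < 2 * π)] {D : Set ℂ} (hD : MeasurableSet D)
    {f : AddCircle (2 * π) → AddCircle (2 * π)} (hf : Ergodic f)
    (h : ∀ y, (AddCircle.toCircle y : ℂ) ∈ D → (AddCircle.toCircle (f y) : ℂ) ∈ D) :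
    Di volume fun s : ℝ => exp (s * I) ∈ D := by
  have hc : Continuous fun y : AddCircle (2 * π) => (AddCircle.toCircle y : ℂ) :=
    continuous_subtype_val.comp AddCircle.continuous_toCircle
  have lift : ∀ q : AddCircle (2 * π) → Prop, (∀ᵐ y, q y) → ∀ᵐ s : ℝ, q s := fun q hq => by
    have hu : ⋃ n : ℤ, Ioc (n : ℝ) (n + 2 * π) = univ := eq_univ_of_forall fun s => by
      refine mem_iUnion.mpr ⟨⌈s⌉ - 1, ?_, ?_⟩ <;> push_cast
      · linarith [Int.ceil_lt_add_one s]
      · linarith [Int.le_ceil s, Real.pi_gt_three]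
    rw [← Measure.restrict_univ (μ := volume), ← hu, ae_restrict_iUnion_iff]
    exact fun n => (AddCircle.measurePreserving_mk (2 * π) n).quasiMeasurePreserving.ae hq
  have he : ∀ s : ℝ, (AddCircle.toCircle (s : AddCircle (2 * π)) : ℂ) = exp (s * I) := fun s => by
    rw [AddCircle.toCircle_apply_mk, div_self Real.two_pi_pos.ne', one_mul, Circle.coe_exp]
  simp only [← he]
  rcases hf.ae_empty_or_univ_of_ae_le_preimage (hc.measurable hD).nullMeasurableSet
    (ae_of_all _ h) with k | k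
  · refine Or.inr (lift (fun y => ¬(AddCircle.toCircle y : ℂ) ∈ D) ?_)
    filter_upwards [k] with y hy using fun a => hy.mp a
  · refine Or.inl (lift (fun y => (AddCircle.toCircle y : ℂ) ∈ D) ?_)
    filter_upwards [k] with y hy using hy.mpr trivial

lemma di_sq {D : Set ℂ} (hD : MeasurableSet D) (h : ∀ u ∈ D, u * u ∈ D) :
    Di volume fun s : ℝ => exp (s * I) ∈ D := by
  have : Fact (0 < 2 * π) := ⟨Real.two_pi_pos⟩
  refine di_circ hD (AddCircle.ergodic_nsmul (n := 2) (by norm_num)) fun y hy => ?_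
  rw [two_smul, AddCircle.toCircle_add, Circle.coe_mul]
  exact h _ hy

lemma di_rot {D : Set ℂ} (hD : MeasurableSet D) {τ : ℝ} (hτ : ∀ r : ℚ, τ ≠ r * π)
    (h : ∀ u ∈ D, exp (τ * I) * u ∈ D) : Di volume fun s : ℝ => exp (s * I) ∈ D := by
  have : Fact (0 < 2 * π) := ⟨Real.two_pi_pos⟩
  refine di_circ hD (AddCircle.ergodic_add_left (a := (τ : AddCircle (2 * π))).mpr ?_)
    fun y hy => ?_
  · rw [addOrderOf_eq_zero_iff']
    intro n hn h0
    rw [← AddCircle.coe_nsmul, AddCircle.coe_eq_zero_iff] at h0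
    obtain ⟨k, hk⟩ := h0
    refine hτ (2 * k / n) ?_
    have : (n : ℝ) ≠ 0 := by positivity
    simp only [zsmul_eq_mul, nsmul_eq_mul] at hk
    push_cast
    field_simp
    linarith
  · rw [AddCircle.toCircle_add, Circle.coe_mul, AddCircle.toCircle_apply_mk,
      div_self Real.two_pi_pos.ne', one_mul, Circle.coe_exp]
    exact h _ hy

lemma ae_of_rot {q : ℂ → Prop} (hq : MeasurableSet {z | q z})
    (h : ∀ᵐ z : ℂ, ∀ᵐ s : ℝ, q (exp (s * I) * z)) : ∀ᵐ z : ℂ, q z := by
  have hc : Continuous fun x : ℂ × ℝ => exp (x.2 * I) * x.1 := by fun_prop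
  rw [Measure.ae_ae_comm (p := fun (z : ℂ) (s : ℝ) => q (exp (s * I) * z))
    (hc.measurable hq)] at h
  obtain ⟨s, hs⟩ := h.exists
  filter_upwards [ae_mul (inv_ne_zero (exp_ne_zero (s * I))) hs] with z hz
  rwa [mul_inv_cancel_left₀ (exp_ne_zero _)] at hz

lemma ae_cone {E : Set ℂ} (hE : MeasurableSet E) (hc : ∀ r : ℝ, 0 < r → ∀ w ∈ E, r * w ∈ E)
    (h : ∀ᵐ s : ℝ, exp (s * I) ∈ E) : ∀ᵐ w : ℂ, w ∈ E := by
  refine ae_of_rot hE ?_
  filter_upwards [compl_mem_ae_iff.mpr (measure_singleton (0 : ℂ))] with w hw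
  filter_upwards [(measurePreserving_add_right volume (arg w)).quasiMeasurePreserving.ae h]
    with s hs
  convert hc _ (norm_pos_iff.mpr hw) _ hs using 1
  conv_lhs => rw [← norm_mul_exp_arg_mul_I w]
  push_cast
  rw [add_mul, exp_add]; ring

lemma ae_plane {q : ℂ → Prop} (h : ∀ᵐ z : ℂ, q z) : ∀ᵐ p : ℝ, ∀ᵐ r : ℝ, q (p + r * I) := by
  have := Measure.ae_ae_of_ae_prod
    (volume_preserving_equiv_real_prod.symm.quasiMeasurePreserving.ae h)
  simpa only [measurableEquivRealProd_symm_apply, mk_eq_add_mul_I] using this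

lemma ae_line {E : Set ℂ} (hE : MeasurableSet E) (hc : ∀ r : ℝ, 0 < r → ∀ w ∈ E, r * w ∈ E)
    (h : ∀ᵐ s : ℝ, exp (s * I) ∈ E) {c : ℝ} (h0 : 0 < c) : ∀ᵐ p : ℝ, p + c * I ∈ E := by
  have h1 := ae_plane (ae_cone hE hc h)
  have hm : Continuous fun x : ℝ × ℝ => (x.1 : ℂ) + x.2 * I := by fun_prop
  rw [Measure.ae_ae_comm (p := fun p r : ℝ => (p : ℂ) + r * I ∈ E) (hm.measurable hE)] at h1
  obtain ⟨r, hr, h2⟩ := Measure.exists_mem_of_measure_ne_zero_of_ae (s := Ioi (0 : ℝ))
    (by simp) (ae_restrict_of_ae h1)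
  have hr' : 0 < r := hr
  filter_upwards [ae_lin (LinearMap.mulLeft ℝ (r / c))
    (mul_left_surjective₀ (by positivity)) h2] with p hp
  convert hc (c / r) (by positivity) _ hp using 1
  have : (r : ℂ) ≠ 0 := by exact_mod_cast hr'.ne'
  have : (c : ℂ) ≠ 0 := by exact_mod_cast h0.ne'
  simp only [LinearMap.mulLeft_apply]
  push_cast
  field_simp

lemma di_plane {D D' : Set ℂ} (hD : MeasurableSet D) (h1 : ∀ᵐ z : ℂ, (I * z ∈ D' ↔ z ∈ D))
    (hl : ∀ r : ℝ, Di volume fun p : ℝ => p + r * I ∈ D)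
    (hl' : ∀ r : ℝ, Di volume fun p : ℝ => p + r * I ∈ D') : Di volume (· ∈ D) := by
  have hm : Continuous fun x : ℝ × ℝ => (x.1 : ℂ) + x.2 * I := by fun_prop
  have h2 : ∀ᵐ p : ℝ, Di volume fun r : ℝ => (p : ℂ) + r * I ∈ D := by
    filter_upwards [ae_plane h1] with p hp
    refine ((hl' p).comp (Measure.measurePreserving_neg volume).quasiMeasurePreserving).congr ?_
    filter_upwards [hp] with r hr
    rw [← hr]
    congr! 1
    push_cast
    linear_combination (-r : ℂ) * I_sq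
  have e : ∀ z : ℂ, ((measurableEquivRealProd z).1 : ℂ) + (measurableEquivRealProd z).2 * I = z :=
    fun z => re_add_im z
  have mp := volume_preserving_equiv_real_prod.quasiMeasurePreserving
  rcases di_prod volume volume (p := fun p r : ℝ => (p : ℂ) + r * I ∈ D) (hm.measurable hD) h2
    (ae_of_all _ hl) with k | k
  · left
    filter_upwards [mp.ae ((Measure.ae_prod_iff_ae_ae (hm.measurable hD)).mpr k)] with z hz
    rwa [← e z]
  · right
    filter_upwards [mp.ae ((Measure.ae_prod_iff_ae_ae (hm.measurable hD).compl).mpr k)] with z hz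
    rwa [← e z]

end Pool.Agent.MP_9bb777_an.ZO
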