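import Pool.Agent.MP_9bb777_an.ZO.Defs

/-! The set of asymptotically Ramanujan tuples is Borel. -/

set_option linter.unusedSectionVars false

namespace Pool.Agent.MP_9bb777_an.ZO

open MeasureTheory Set Filter Module
open scoped InnerProductSpace Topology

section
variable {V : Type*} [NormedAddCommGroup V] [InnerProductSpace ℂ V]

/-- the form is nonpositive on a subspace of finite codimension -/
def Ng (T : V →ₗ[ℂ] V) : Prop :=
  ∃ (n : ℕ) (g : Fin n → V), ∀ f, (∀ i, ⟪g i, f⟫_ℂ = 0) → (⟪f, T f⟫_ℂ).re ≤ 0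

/-- the form is positive definite on a subspace of dimension `n` -/
def Ps (T : V →ₗ[ℂ] V) (n : ℕ) : Prop :=
  ∃ v : Fin n → V, ∀ c : Fin n → ℂ, c ≠ 0 → 0 < (⟪∑ i, c i • v i, T (∑ i, c i • v i)⟫_ℂ).re

lemma re_smul_form (T : V →ₗ[ℂ] V) (c : ℂ) (f : V) :
    (⟪c • f, T (c • f)⟫_ℂ).re = ‖c‖ ^ 2 * (⟪f, T f⟫_ℂ).re := by
  rw [map_smul, inner_smul_left, inner_smul_right, ← mul_assoc, Complex.conj_mul',
    ← Complex.ofReal_pow, Complex.re_ofReal_mul]

lemma ng_iff {T : V →ₗ[ℂ] V} (hT : T.IsSymmetric) : Ng T ↔ ∃ n, ¬Ps T n := by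
  constructor
  · rintro ⟨n, g, h⟩
    refine ⟨n + 1, fun ⟨v, hv⟩ => ?_⟩
    let L : (Fin (n + 1) → ℂ) →ₗ[ℂ] Fin n → ℂ :=
      LinearMap.pi fun i => (innerSL ℂ (g i)).toLinearMap ∘ₗ Fintype.linearCombination ℂ v
    obtain ⟨c, hc, h0⟩ := (Submodule.ne_bot_iff _).mp (L.ker_ne_bot_of_finrank_lt (by simp))
    exact (hv c h0).not_ge (h _ fun i => congrFun (LinearMap.mem_ker.mp hc) i)
  · rintro ⟨n, hn⟩
    induction n with
    | zero => exact absurd ⟨default, fun c hc => absurd (Subsingleton.elim _ _) hc⟩ hn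
    | succ n ih =>
      by_cases h : Ps T n
      swap
      · exact ih h
      obtain ⟨v, hv⟩ := h
      refine ⟨n, fun i => T (v i), fun f hf => ?_⟩
      by_contra hp
      push Not at hp
      refine hn ⟨Fin.cons f v, fun c hc => ?_⟩
      simp only [Fin.sum_univ_succ, Fin.cons_zero, Fin.cons_succ]
      set u := ∑ i : Fin n, c i.succ • v i with hu
      have h1 : ⟪T u, f⟫_ℂ = 0 := by simp [hu, hf]
      have h2 : ⟪u, T (c 0 • f)⟫_ℂ = 0 := by rw [← hT, inner_smul_right, h1, mul_zero]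
      have h3 : ⟪c 0 • f, T u⟫_ℂ = 0 := by
        rw [inner_smul_left, inner_eq_zero_symm.mp h1, mul_zero]
      rw [map_add, inner_add_left, inner_add_right, inner_add_right, h2, h3, add_zero, zero_add,
        Complex.add_re, re_smul_form]
      by_cases h4 : (fun i : Fin n => c i.succ) = 0
      · have h5 : c 0 ≠ 0 := fun h5 => hc (funext (Fin.cases h5 (congrFun h4)))
        have h6 : u = 0 := Finset.sum_eq_zero fun i _ => by
          rw [show c i.succ = 0 from congrFun h4 i, zero_smul]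
        simp only [h6, inner_zero_left, Complex.zero_re, add_zero]
        positivity
      · exact add_pos_of_nonneg_of_pos (by positivity) (hv _ h4)

lemma isOpen_ps {Z : Type*} [TopologicalSpace Z] (T : Z → V →ₗ[ℂ] V)
    (hc : ∀ v, Continuous fun z => T z v) (n : ℕ) : IsOpen {z | Ps (T z) n} := by
  refine isOpen_iff_mem_nhds.mpr fun z0 ⟨v, hv⟩ => ?_
  have hq : Continuous fun x : Z × (Fin n → ℂ) =>
      (⟪∑ i, x.2 i • v i, T x.1 (∑ i, x.2 i • v i)⟫_ℂ).re := by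
    simp only [map_sum, map_smul]
    refine Complex.continuous_re.comp (Continuous.inner (by fun_prop) ?_)
    exact continuous_finsetSum _ fun i _ =>
      ((continuous_apply i).comp continuous_snd).smul ((hc _).comp continuous_fst)
  have := (isCompact_sphere (0 : Fin n → ℂ) 1).eventually_forall_of_forall_eventually (x₀ := z0)
    (P := fun z c => 0 < (⟪∑ i, c i • v i, T z (∑ i, c i • v i)⟫_ℂ).re) fun c hc =>
      (isOpen_lt continuous_const hq).mem_nhds (hv c fun h => by simp [h] at hc)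
  filter_upwards [this] with z hz
  refine ⟨v, fun c hc => ?_⟩
  have h0 : 0 < ‖c‖ := norm_pos_iff.mpr hc
  have h1 := hz ((‖c‖⁻¹ : ℂ) • c) (by simp [norm_smul, h0.ne'])
  simp only [Pi.smul_apply, smul_eq_mul, mul_smul, ← Finset.smul_sum, re_smul_form] at h1
  by_contra h2
  exact h1.not_ge (mul_nonpos_of_nonneg_of_nonpos (by positivity) (not_lt.mp h2))

lemma meas_ng {Z : Type*} [TopologicalSpace Z] [MeasurableSpace Z] [OpensMeasurableSpace Z]
    (T : Z → V →ₗ[ℂ] V) (hT : ∀ z, (T z).IsSymmetric) (hc : ∀ v, Continuous fun z => T z v) :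
    MeasurableSet {z | Ng (T z)} := by
  simp only [ng_iff (hT _), ofPred_exists]
  exact MeasurableSet.iUnion fun n => (isOpen_ps T hc n).measurableSet.compl

end

variable {K : Type} [Group K] [TopologicalSpace K] [IsTopologicalGroup K] [CompactSpace K]
  [T2Space K] [MeasurableSpace K] [BorelSpace K] (μ : Measure K) [μ.IsHaarMeasure]
  [IsProbabilityMeasure μ]

/-- left translation on square integrable functions -/
noncomputable def tr (g : K) : Lp ℂ 2 μ →ₗᵢ[ℂ] Lp ℂ 2 μ :=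
  Lp.compMeasurePreservingₗᵢ ℂ (fun x => g * x) (measurePreserving_mul_left μ g)

variable {μ}

lemma tr_ae (g : K) {F : Lp ℂ 2 μ} {f : K → ℂ} (h : F =ᵐ[μ] f) :
    tr μ g F =ᵐ[μ] fun x => f (g * x) :=
  (Lp.coeFn_compMeasurePreserving F (measurePreserving_mul_left μ g)).trans
    ((measurePreserving_mul_left μ g).quasiMeasurePreserving.ae_eq_comp h)

lemma tr_tr (g : K) (F : Lp ℂ 2 μ) : tr μ g (tr μ g⁻¹ F) = F :=
  Lp.ext ((tr_ae g (tr_ae g⁻¹ (EventuallyEq.refl _ _))).trans (by simp))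

lemma tr_adj (g : K) (F H : Lp ℂ 2 μ) : ⟪tr μ g F, H⟫_ℂ = ⟪F, tr μ g⁻¹ H⟫_ℂ := by
  rw [← (tr μ g).inner_map_map F, tr_tr]

lemma continuous_tr (F : Lp ℂ 2 μ) : Continuous fun g : K => tr μ g F :=
  Continuous.compMeasurePreservingLp (f := fun _ : K => F)
    (g := fun g : K => ContinuousMap.curry ⟨fun x : K × K => x.1 * x.2, continuous_mul⟩ g)
    continuous_const (ContinuousMap.continuous _) (measurePreserving_mul_left μ)
    ENNReal.ofNat_ne_top

variable (μ) in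
/-- the operator `σ Δ - R` -/
noncomputable def op {r : ℕ} (σ R : ℝ) (b : Fin r → K) : Lp ℂ 2 μ →ₗ[ℂ] Lp ℂ 2 μ :=
  (σ : ℂ) • ∑ j, ((tr μ (b j)).toLinearMap + (tr μ (b j)⁻¹).toLinearMap) - (R : ℂ) • LinearMap.id

lemma op_apply {r : ℕ} (σ R : ℝ) (b : Fin r → K) (F : Lp ℂ 2 μ) :
    op μ σ R b F = (σ : ℂ) • ∑ j, (tr μ (b j) F + tr μ (b j)⁻¹ F) - (R : ℂ) • F := by
  rw [op, LinearMap.sub_apply, LinearMap.smul_apply, LinearMap.smul_apply, LinearMap.sum_apply]
  rfl

lemma op_symm {r : ℕ} (σ R : ℝ) (b : Fin r → K) : (op μ σ R b).IsSymmetric := fun F H => by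
  simp only [op_apply, inner_sub_left, inner_sub_right, inner_smul_left, inner_smul_right,
    sum_inner, inner_sum, inner_add_left, inner_add_right, tr_adj, inv_inv, Complex.conj_ofReal,
    add_comm]

lemma inner_ae {F H : Lp ℂ 2 μ} {f h : K → ℂ} (hF : F =ᵐ[μ] f) (hH : H =ᵐ[μ] h) :
    ⟪F, H⟫_ℂ = ∫ x, h x * starRingEnd ℂ (f x) ∂μ := by
  rw [L2.inner_def]
  refine integral_congr_ae ?_
  filter_upwards [hF, hH] with x a b
  rw [a, b, RCLike.inner_apply]

lemma op_form {r : ℕ} (σ R : ℝ) (b : Fin r → K) {F : Lp ℂ 2 μ} {f : K → ℂ} (h : F =ᵐ[μ] f) :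
    (⟪F, op μ σ R b F⟫_ℂ).re =
      σ * (∫ x, (∑ j, (f (b j * x) + f ((b j)⁻¹ * x))) * starRingEnd ℂ (f x) ∂μ).re -
        R * ∫ x, ‖f x‖ ^ 2 ∂μ := by
  have h1 : (∑ j, (tr μ (b j) F + tr μ (b j)⁻¹ F) : Lp ℂ 2 μ) =ᵐ[μ]
      fun x => ∑ j, (f (b j * x) + f ((b j)⁻¹ * x)) := by
    have : ∀ j, ∀ᵐ x ∂μ, (tr μ (b j) F + tr μ (b j)⁻¹ F : Lp ℂ 2 μ) x =
        f (b j * x) + f ((b j)⁻¹ * x) := fun j =>
      (Lp.coeFn_add _ _).trans ((tr_ae _ h).add (tr_ae _ h))
    filter_upwards [Lp.coeFn_fun_finsetSum Finset.univ fun j => tr μ (b j) F + tr μ (b j)⁻¹ F,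
      ae_all_iff.mpr this] with x a c
    rw [a]
    exact Finset.sum_congr rfl fun j _ => c j
  rw [op_apply, inner_sub_right, inner_smul_right, inner_smul_right, inner_ae h h1, inner_ae h h,
    Complex.sub_re, Complex.re_ofReal_mul, Complex.re_ofReal_mul]
  simp only [Complex.mul_conj', ← Complex.ofReal_pow, integral_complex_ofReal, Complex.ofReal_re]

lemma ar_iff {r : ℕ} (b : Fin r → K) : AR μ b ↔ ∀ k : ℕ,
    Ng (op μ 1 (2 * √(2 * (r : ℝ) - 1) + 1 / (k + 1)) b) ∧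
      Ng (op μ (-1) (2 * √(2 * (r : ℝ) - 1) + 1 / (k + 1)) b) := by
  constructor
  · intro h k
    obtain ⟨n, g, hg, h⟩ := h (1 / (k + 1)) (by positivity)
    have h1 : MemLp (fun _ : K => (1 : ℂ)) 2 μ := memLp_const 1
    let u : Fin (n + 1) → Lp ℂ 2 μ := Fin.cons (h1.toLp _) fun i => (hg i).toLp _
    have key : ∀ F : Lp ℂ 2 μ, (∀ i, ⟪u i, F⟫_ℂ = 0) → _ := fun F hF =>
      abs_le.mp (h F (Lp.memLp F)
        (by simpa using (inner_ae h1.coeFn_toLp (EventuallyEq.refl _ _)).symm.trans (hF 0))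
        fun i => (inner_ae (hg i).coeFn_toLp (EventuallyEq.refl _ _)).symm.trans (hF i.succ))
    refine ⟨⟨_, u, fun F hF => ?_⟩, ⟨_, u, fun F hF => ?_⟩⟩
    · rw [op_form _ _ _ (EventuallyEq.refl _ _)]; linarith [(key F hF).2]
    · rw [op_form _ _ _ (EventuallyEq.refl _ _)]; linarith [(key F hF).1]
  · intro h ε hε
    obtain ⟨k, hk⟩ := exists_nat_one_div_lt hε
    obtain ⟨⟨n, g, h1⟩, ⟨n', g', h2⟩⟩ := h k
    refine ⟨n + n', fun i => (Fin.append g g' i : Lp ℂ 2 μ), fun i => Lp.memLp _,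
      fun f hf _ h0 => ?_⟩
    have h3 : ∀ i, ⟪Fin.append g g' i, hf.toLp f⟫_ℂ = 0 := fun i =>
      (inner_ae (EventuallyEq.refl _ _) hf.coeFn_toLp).trans (h0 i)
    have h4 := h1 _ fun i => by simpa using h3 (Fin.castAdd n' i)
    have h5 := h2 _ fun i => by simpa using h3 (Fin.natAdd n i)
    rw [op_form _ _ _ hf.coeFn_toLp] at h4 h5
    have h6 : 0 ≤ ∫ x, ‖f x‖ ^ 2 ∂μ := integral_nonneg fun x => by positivity
    have h7 := mul_le_mul_of_nonneg_right hk.le h6
    rw [abs_le]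
    constructor <;> linarith

lemma meas_ar {Z : Type*} [TopologicalSpace Z] [MeasurableSpace Z] [OpensMeasurableSpace Z]
    {r : ℕ} {b : Z → Fin r → K} (hb : ∀ j, Continuous fun z => b z j) :
    MeasurableSet {z | AR μ (b z)} := by
  have h : ∀ σ R : ℝ, MeasurableSet {z | Ng (op μ σ R (b z))} := fun σ R =>
    meas_ng (fun z => op μ σ R (b z)) (fun z => op_symm _ _ _) fun F => by
      simp only [op_apply]
      exact ((continuous_finsetSum _ fun j _ => ((continuous_tr F).comp (hb j)).add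
        ((continuous_tr F).comp (hb j).inv)).const_smul (σ : ℂ)).sub continuous_const
  simp only [ar_iff, ofPred_forall]
  exact MeasurableSet.iInter fun k => (h _ _).inter (h _ _)

end Pool.Agent.MP_9bb777_an.ZO
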