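import Pool.Agent.MP_9bb777_an.ZO.Sq
import Pool.Agent.MP_9bb777_an.ZO.Ess
import Pool.Agent.MP_9bb777_an.NG.TransferP

/-! The zero-one law for the asymptotically Ramanujan property along descendants in `SU(2)`. -/

namespace Pool.Agent.MP_9bb777_an.ZO

open NG NG.TransferP MeasureTheory Set Filter Function FreeGroup

lemma continuous_lift {ι K : Type} [Group K] [TopologicalSpace K] [IsTopologicalGroup K]
    (w : FreeGroup ι) : Continuous fun a : ι → K => lift a w := by
  induction w using FreeGroup.induction_on with
  | C1 => simpa using continuous_const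
  | of x => simpa using continuous_apply x
  | inv_of x h => simp only [_root_.map_inv]; exact h.inv
  | mul x y hx hy => simp only [_root_.map_mul]; exact hx.mul hy

lemma meas_dense {Z K : Type} [TopologicalSpace Z] [MeasurableSpace Z] [OpensMeasurableSpace Z]
    [Group K] [TopologicalSpace K] [IsTopologicalGroup K] [SecondCountableTopology K] {r : ℕ}
    {b : Z → Fin r → K} (hb : Continuous b) :
    MeasurableSet {z | Dense (Subgroup.closure (range (b z)) : Set K)} := by
  have : {z | Dense (Subgroup.closure (range (b z)) : Set K)} =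
      ⋂ U ∈ TopologicalSpace.countableBasis K, ⋃ v : FreeGroup (Fin r),
        (fun z => lift (b z) v) ⁻¹' U := by
    ext z
    simp only [mem_ofPred_eq, (TopologicalSpace.isBasis_countableBasis K).dense_iff, mem_iInter,
      mem_iUnion, mem_preimage, ← range_lift_eq_closure]
    refine forall₂_congr fun U hU => ⟨fun h => ?_, fun ⟨v, hv⟩ _ => ⟨_, hv, v, rfl⟩⟩
    obtain ⟨_, h1, v, rfl⟩ := h (TopologicalSpace.nonempty_of_mem_countableBasis hU)
    exact ⟨v, h1⟩
  rw [this]
  exact MeasurableSet.biInter (TopologicalSpace.countable_countableBasis K) fun U hU =>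
    MeasurableSet.iUnion fun v => (((continuous_lift v).comp hb).isOpen_preimage _
      (TopologicalSpace.isOpen_of_mem_countableBasis hU)).measurableSet

lemma foldl_iso {m : ℕ} (L : List (Fin m × Fin m)) (a : Fin m → G) :
    (fun k => iso (L.foldl mv a k)) = L.foldl mv fun k => iso (a k) := by
  induction L generalizing a with
  | nil => rfl
  | cons p L ih =>
    rw [List.foldl_cons, List.foldl_cons, ih]
    congr 1
    exact (comp_update iso a p.1 _).trans (by rw [_root_.map_mul]; rfl)

theorem desc_su {m : ℕ} (hm2 : 2 ≤ m) [MeasurableSpace SU] [BorelSpace SU] (μ : Measure SU)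
    [μ.IsHaarMeasure] [IsProbabilityMeasure μ] {S : Set (Fin m → SU)} (hS : MeasurableSet S) :
    (∀ᵐ a ∂(Measure.pi fun _ => μ), a ∈ S) ↔ (Measure.pi fun _ => μ) {a | ∀ b,
      Relation.ReflTransGen (fun b c => ∃ i j, c = update b i (b i * b j)) a b → b ∈ S} ≠ 0 := by
  have := su_top
  let e : SU ≃ᵐ G := (Homeomorph.mk iso.symm.toEquiv continuous_iso_symm
    continuous_iso).toMeasurableEquiv
  have hmeas : Measurable iso.symm := continuous_iso_symm.measurable
  have hmap : Measure.map iso.symm μ = hm := by
    have : (Measure.map iso.symm μ).IsHaarMeasure :=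
      iso.symm.isHaarMeasure_map μ continuous_iso_symm continuous_iso
    have : IsProbabilityMeasure (Measure.map iso.symm μ) :=
      Measure.isProbabilityMeasure_map hmeas.aemeasurable
    exact Measure.isHaarMeasure_eq_of_isProbabilityMeasure _ _
  have hmp : MeasurePreserving e μ hm := ⟨hmeas, hmap⟩
  have h1 := (measurePreserving_pi (fun _ : Fin m => μ) (fun _ => hm)
    fun _ => hmp).quasiMeasurePreserving
  have h2 := measurePreserving_pi (fun _ : Fin m => hm) (fun _ => μ) fun _ => hmp.symm e
  have tr : ∀ q : (Fin m → SU) → Prop, (∀ᵐ a ∂(Measure.pi fun _ => μ), q a) ↔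
      ∀ᵐ a ∂(Measure.pi fun _ => hm), q fun k => iso (a k) := fun q =>
    ⟨h2.quasiMeasurePreserving.ae, fun h => by
      filter_upwards [h1.ae h] with a ha
      convert ha using 2
      exact (iso.apply_symm_apply _).symm⟩
  have k := desc_iff hm2 (h2.measurable hS)
  rw [tr, Ne, measure_eq_zero_iff_ae_notMem, tr]
  refine k.trans (not_congr (eventually_congr (Eventually.of_forall fun a => not_congr ?_)))
  simp only [mem_ofPred_eq, reach_iff, forall_exists_index, forall_eq_apply_imp_iff, ← foldl_iso]
  rfl

theorem meas_good (m r : ℕ) (w : Fin r → FreeGroup (Fin m)) [MeasurableSpace SU]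
    [BorelSpace SU] (μ : Measure SU) [μ.IsHaarMeasure] [IsProbabilityMeasure μ] :
    MeasurableSet {a : Fin m → SU |
      Dense (Subgroup.closure (range fun j => lift a (w j)) : Set SU) →
        AR μ fun j => lift a (w j)} := by
  have := su_top
  have : CompactSpace SU := ⟨by
    rw [← iso.surjective.range_eq]; exact isCompact_range continuous_iso⟩
  have : SecondCountableTopology (Matrix (Fin 2) (Fin 2) ℂ) :=
    inferInstanceAs (SecondCountableTopology (Fin 2 → Fin 2 → ℂ))
  have : SecondCountableTopology SU := TopologicalSpace.Subtype.secondCountableTopology _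
  exact (meas_dense (continuous_pi fun j => continuous_lift (w j))).imp
    (meas_ar fun j => continuous_lift (w j))

end Pool.Agent.MP_9bb777_an.ZO
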