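import Pool.Agent.MP_9bb777_an.ZO.Dich
import Pool.Agent.MP_9bb777_an.NG.Geo

/-! Sets of tuples of unit quaternions closed under the moves `a i ↦ a i * a j` (with `i = j`
allowed) are null or conull. -/

namespace Pool.Agent.MP_9bb777_an.ZO

open NG MeasureTheory Set Filter Quaternion Function
open scoped Real

open scoped Classical in
/-- normalisation of a quaternion -/
noncomputable def N (x : ℍ) : G :=
  if h : x = 0 then 1 else mkG (‖x‖⁻¹ • x) (by
    have := norm_ne_zero_iff.mpr h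
    rw [normSq_smul, normSq_eq_norm_mul_self]; field_simp)

lemma coe_N {x : ℍ} (hx : x ≠ 0) : (N x : ℍ) = ‖x‖⁻¹ • x := by simp [N, hx]

lemma ne0 (g : G) : (g : ℍ) ≠ 0 := norm_ne_zero_iff.mp (by simp)

lemma N_coe (g : G) : N g = g := Subtype.ext (by rw [coe_N (ne0 g)]; simp)

lemma N_smul {r : ℝ} (hr : 0 < r) (x : ℍ) : N (r • x) = N x := by
  by_cases hx : x = 0
  · simp [hx]
  · apply Subtype.ext
    rw [coe_N hx, coe_N (smul_ne_zero hr.ne' hx), norm_smul, Real.norm_of_nonneg hr.le, smul_smul,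
      mul_inv, mul_comm r⁻¹, mul_assoc, inv_mul_cancel₀ hr.ne', mul_one]

lemma N_mul {x y : ℍ} (hx : x ≠ 0) (hy : y ≠ 0) : N (x * y) = N x * N y := by
  apply Subtype.ext
  rw [coe_mulG, coe_N hx, coe_N hy, coe_N (mul_ne_zero hx hy), norm_mul, mul_inv,
    smul_mul_smul_comm]

lemma meas_N {Y : Type*} [TopologicalSpace Y] [MeasurableSpace Y] [OpensMeasurableSpace Y]
    {f : Y → ℍ} (hf : Continuous f) : Measurable fun y => N (f y) := by
  classical
  let _ : MeasurableSpace ℍ := borel ℍ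
  have : BorelSpace ℍ := ⟨rfl⟩
  refine Measurable.comp (g := N) ?_ hf.measurable
  refine measurable_of_continuousOn_compl_singleton 0 ?_
  rw [Topology.IsEmbedding.subtypeVal.continuousOn_iff]
  refine ContinuousOn.congr (f := fun x : ℍ => ‖x‖⁻¹ • x) ?_ fun x hx => coe_N hx
  exact (continuous_norm.continuousOn.inv₀ fun x hx => norm_ne_zero_iff.mpr hx).smul
    continuousOn_id

/-- a quaternion from two complex numbers -/
def qz (z w : ℂ) : ℍ := ⟨z.re, z.im, w.re, w.im⟩

@[fun_prop] lemma continuous_qz {Y : Type*} [TopologicalSpace Y] {f g : Y → ℂ}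
    (hf : Continuous f) (hg : Continuous g) : Continuous fun y => qz (f y) (g y) := by
  have : (fun y => qz (f y) (g y)) = fun y => (f y).re • (1 : ℍ) + (f y).im • ei.1 +
      (g y).re • ej.1 + (g y).im • ek.1 := by
    funext y; ext <;> simp [qz, ei, ej, ek]
  rw [this]; fun_prop

lemma qz_ne (z : ℂ) {w : ℂ} (hw : w ≠ 0) : qz z w ≠ 0 := fun h =>
  hw (Complex.ext (congrArg QuaternionAlgebra.imJ h) (congrArg QuaternionAlgebra.imK h))

lemma haar_of_vol {B : Set G} (hB : MeasurableSet B) (h : ∀ᵐ w : ℂ, ∀ᵐ z : ℂ, N (qz z w) ∈ B) :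
    ∀ᵐ g ∂hm, g ∈ B := by
  have h0 : ∀ᵐ y : ℂ × ℂ, N (qz y.2 y.1) ∈ B :=
    (Measure.ae_prod_iff_ae_ae (meas_N (f := fun y : ℂ × ℂ => qz y.2 y.1) (by fun_prop) hB)).mpr h
  have h1 : ∀ g : G, ∀ᵐ y : ℂ × ℂ, N (g * qz y.2 y.1) ∈ B := fun g => by
    let U : ℍ → ℂ × ℂ := fun x => (⟨x.imJ, x.imK⟩, ⟨x.re, x.imI⟩)
    let L : ℂ × ℂ →ₗ[ℝ] ℂ × ℂ :=
      { toFun := fun y => U (g * qz y.2 y.1)
        map_add' := fun x y => by
          refine Prod.ext ?_ ?_ <;> apply Complex.ext <;> simp [U, qz] <;> ring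
        map_smul' := fun r x => by
          refine Prod.ext ?_ ?_ <;> apply Complex.ext <;> simp [U, qz] <;> ring }
    have hL : Surjective L := fun y => ⟨U (star (g : ℍ) * qz y.2 y.1), by
      change U (g * (star (g : ℍ) * qz y.2 y.1)) = y
      rw [← mul_assoc, mul_starG, one_mul]; rfl⟩
    have : (volume : Measure (ℂ × ℂ)).IsAddHaarMeasure := Measure.prod.instIsAddHaarMeasure _ _
    exact ae_lin L hL h0
  have h2 := (Measure.ae_ae_comm (μ := hm) (ν := volume)
    (p := fun (g : G) (y : ℂ × ℂ) => N (g * qz y.2 y.1) ∈ B)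
    (meas_N (f := fun x : G × ℂ × ℂ => (x.1 : ℍ) * qz x.2.2 x.2.1) (by fun_prop) hB)).mp
    (ae_of_all _ h1)
  have h3 : ∀ᵐ y : ℂ × ℂ, y.1 ≠ 0 := Measure.quasiMeasurePreserving_fst.ae
    (compl_mem_ae_iff.mpr (measure_singleton (0 : ℂ)))
  obtain ⟨y, hy, hy0⟩ := (h2.and h3).exists
  filter_upwards [(measurePreserving_mul_right hm (N (qz y.2 y.1))⁻¹).quasiMeasurePreserving.ae hy]
    with g hg
  rwa [N_mul (ne0 _) (qz_ne _ hy0), N_coe, inv_mul_cancel_right] at hg

lemma ae_re_ne (c : ℝ) : ∀ᵐ g ∂hm, ((g : G) : ℍ).re ≠ c := by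
  have hB : MeasurableSet {g : G | (g : ℍ).re ≠ c} :=
    (isOpen_ne_fun (continuous_re.comp continuous_subtype_val) continuous_const).measurableSet
  refine haar_of_vol hB ?_
  filter_upwards [compl_mem_ae_iff.mpr (measure_singleton (0 : ℂ))] with w hw
  have hm1 := meas_N (f := fun y : ℝ × ℝ => qz (y.2 + y.1 * Complex.I) w) (by fun_prop) hB
  have h1 : ∀ᵐ y : ℝ × ℝ, (N (qz (y.2 + y.1 * Complex.I) w) : ℍ).re ≠ c := by
    refine (Measure.ae_prod_iff_ae_ae hm1).mpr (ae_of_all _ fun r => ?_)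
    set K := r ^ 2 + w.re ^ 2 + w.im ^ 2 with hK
    have hK0 : 0 < K := by
      have := Complex.normSq_pos.mpr hw
      rw [Complex.normSq_apply] at this
      nlinarith [sq_nonneg r]
    filter_upwards [compl_mem_ae_iff.mpr (measure_singleton √(c ^ 2 * K / (1 - c ^ 2))),
      compl_mem_ae_iff.mpr (measure_singleton (-√(c ^ 2 * K / (1 - c ^ 2))))] with p h1 h2 h3
    change (N (qz (p + r * Complex.I) w) : ℍ).re = c at h3
    have hn := norm_ne_zero_iff.mpr (qz_ne (p + r * Complex.I) hw)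
    have h4 : ‖qz (p + r * Complex.I) w‖ ^ 2 = p ^ 2 + K := by
      rw [sq, ← normSq_eq_norm_mul_self, normSq_def']; simp [qz, hK]; ring
    rw [coe_N (qz_ne _ hw), re_smul, smul_eq_mul, inv_mul_eq_iff_eq_mul₀ hn] at h3
    have h5 : p ^ 2 * (1 - c ^ 2) = c ^ 2 * K := by
      have : p = ‖qz (p + r * Complex.I) w‖ * c := by simpa [qz] using h3
      have h6 : p ^ 2 = (p ^ 2 + K) * c ^ 2 := by rw [← h4, ← mul_pow, ← this]
      linarith
    have h7 : 1 - c ^ 2 ≠ 0 := fun h => by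
      rw [h] at h5; nlinarith
    rw [← h5, mul_div_cancel_right₀ _ h7, Real.sqrt_sq_eq_abs] at h1 h2
    rcases abs_choice p with e | e
    · exact h1 e.symm
    · exact h2 (by rw [e, neg_neg]; rfl)
  filter_upwards [Complex.volume_preserving_equiv_real_prod.quasiMeasurePreserving.ae
    (Measure.measurePreserving_swap.quasiMeasurePreserving.ae h1)] with z hz
  have e : ((Complex.measurableEquivRealProd z).swap.2 : ℂ) +
    (Complex.measurableEquivRealProd z).swap.1 * Complex.I = z := Complex.re_add_im z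
  rwa [e] at hz

lemma di_line {A : Set G} (hA : MeasurableSet A) (h3 : ∀ x ∈ A, x * x ∈ A) {w : ℂ} (hw : w ≠ 0)
    (r : ℝ) : Di volume fun p : ℝ => N (qz (p + r * Complex.I) w) ∈ A := by
  set v := qz (r * Complex.I) w with hv
  have hc : 0 < ‖v‖ := norm_pos_iff.mpr (qz_ne _ hw)
  let X : Pu := ⟨‖v‖⁻¹ • v, by simp [hv, qz], by
    rw [normSq_smul, normSq_eq_norm_mul_self]; field_simp⟩
  let ι : ℂ → ℍ := fun u => u.re • (1 : ℍ) + u.im • X.1
  have hι : ∀ u, ι (u * u) = ι u * ι u := fun u => by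
    simp only [ι, add_mul, mul_add, smul_mul_assoc, mul_smul_comm, one_mul, mul_one, X.sq,
      Complex.mul_re, Complex.mul_im]
    module
  have hs : ∀ (s : ℝ) (u : ℂ), 0 < s → N (ι (s * u)) = N (ι u) := fun s u h => by
    rw [← N_smul h (ι u)]
    congr 1
    simp only [ι, Complex.re_ofReal_mul, Complex.im_ofReal_mul]
    module
  have e : ∀ p : ℝ, ι (p + (‖v‖ : ℝ) * Complex.I) = qz (p + r * Complex.I) w := fun p => by
    have : (‖v‖ : ℝ) • X.1 = v := smul_inv_smul₀ hc.ne' v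
    simp only [ι, Complex.add_re, Complex.ofReal_re, Complex.mul_re, Complex.I_re, mul_zero,
      Complex.ofReal_im, Complex.I_im, mul_one, sub_self, add_zero, Complex.add_im,
      Complex.mul_im, zero_add, this]
    ext <;> simp [hv, qz]
  have hD : MeasurableSet {u | N (ι u) ∈ A} := meas_N (f := ι) (by fun_prop) hA
  simp only [← e]
  refine (di_sq hD fun u hu => ?_).imp
    (fun k => ae_line hD (fun s h u hu => ?_) k hc)
    (fun k => ae_line hD.compl (fun s h u hu => ?_) k hc)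
  · change N (ι (u * u)) ∈ A
    by_cases h0 : ι u = 0
    · rw [hι, h0, mul_zero, ← h0]; exact hu
    · rw [hι, N_mul h0 h0]; exact h3 _ hu
  · change N _ ∈ A
    rwa [hs s u h]
  · change ¬N _ ∈ A
    rwa [hs s u h]

open Complex ComplexConjugate in
lemma di_one {A : Set G} (hA : MeasurableSet A) {t : ℝ} (ht : ∀ r : ℚ, t ≠ r * π)
    (h1 : ∀ x ∈ A, x * qq ei t ∈ A) (h3 : ∀ x ∈ A, x * x ∈ A) : Di hm (· ∈ A) := by
  have fin : ∀ B : Set G, MeasurableSet B → (∀ᵐ s : ℝ, ∀ᵐ z : ℂ,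
      N (qz (exp (s * I) * z) (conj (exp (s * I)))) ∈ B) → ∀ᵐ g ∂hm, g ∈ B := by
    intro B hB h
    refine haar_of_vol hB (ae_cone (E := {w | ∀ᵐ z : ℂ, N (qz z w) ∈ B}) (meas_ae volume
      (meas_N (f := fun y : ℂ × ℂ => qz y.2 y.1) (by fun_prop) hB)) (fun r hr w hw => ?_) ?_)
    · have hr' : (r : ℂ) ≠ 0 := by exact_mod_cast hr.ne'
      filter_upwards [ae_mul (inv_ne_zero hr') hw] with z hz
      rw [← N_smul hr] at hz
      convert hz using 2
      rw [← ofReal_inv]
      ext <;> simp only [qz, re_ofReal_mul, im_ofReal_mul] <;> simp [hr.ne']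
    · filter_upwards [(Measure.measurePreserving_neg volume).quasiMeasurePreserving.ae h] with s hs
      filter_upwards [ae_mul (inv_ne_zero (exp_ne_zero (((-s : ℝ) : ℂ) * I))) hs] with z hz
      rw [mul_inv_cancel_left₀ (exp_ne_zero _), ← exp_conj] at hz
      simpa using hz
  have rot : ∀ z : ℂ, Di volume fun s : ℝ =>
      N (qz (exp (s * I) * z) (conj (exp (s * I)))) ∈ A := fun z => by
    refine di_rot (D := {u | N (qz (u * z) (conj u)) ∈ A})
      (meas_N (f := fun u => qz (u * z) (conj u)) (by fun_prop) hA) ht fun u hu => ?_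
    have e : qz (exp (t * I) * u * z) (conj (exp (t * I) * u)) =
        qz (u * z) (conj u) * qq ei t := by
      ext <;> simp only [qz, coe_qq, Complex.mul_re, Complex.mul_im, exp_ofReal_mul_I_re,
        exp_ofReal_mul_I_im, conj_re, conj_im] <;> simp [ei] <;> ring
    change N _ ∈ A
    rw [e]
    by_cases h0 : qz (u * z) (conj u) = 0
    · rw [h0, zero_mul, ← h0]; exact hu
    · rw [N_mul h0 (ne0 _), N_coe]; exact h1 _ hu
  have quarter : ∀ᵐ s : ℝ, ∀ᵐ z : ℂ,
      (N (qz (I * (exp (s * I) * z)) (conj (I * exp (s * I)))) ∈ A ↔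
        N (qz (exp (s * I) * z) (conj (exp (s * I)))) ∈ A) := by
    refine (Measure.ae_ae_comm (p := fun (s : ℝ) (z : ℂ) =>
      N (qz (I * (exp (s * I) * z)) (conj (I * exp (s * I)))) ∈ A ↔
        N (qz (exp (s * I) * z) (conj (exp (s * I)))) ∈ A) (MeasurableSet.iff
      (meas_N (f := fun y : ℝ × ℂ => qz (I * (exp (y.1 * I) * y.2)) (conj (I * exp (y.1 * I))))
        (by fun_prop) hA)
      (meas_N (f := fun y : ℝ × ℂ => qz (exp (y.1 * I) * y.2) (conj (exp (y.1 * I))))
        (by fun_prop) hA))).mpr (ae_of_all _ fun z => ?_)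
    have e : ∀ s : ℝ, exp (((s + π / 2 : ℝ) : ℂ) * I) = I * exp (s * I) := fun s => by
      push_cast
      rw [add_mul, exp_add, exp_pi_div_two_mul_I, mul_comm]
    have sh := (measurePreserving_add_right volume (π / 2)).quasiMeasurePreserving
    rcases rot z with k | k
    · filter_upwards [k, sh.ae k] with s a b
      exact iff_of_true (by rwa [e, mul_assoc] at b) a
    · filter_upwards [k, sh.ae k] with s a b
      exact iff_of_false (by rwa [e, mul_assoc] at b) a
  refine (di_prod volume volume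
    (p := fun (s : ℝ) (z : ℂ) => N (qz (exp (s * I) * z) (conj (exp (s * I)))) ∈ A)
    (meas_N (f := fun y : ℝ × ℂ => qz (exp (y.1 * I) * y.2) (conj (exp (y.1 * I))))
      (by fun_prop) hA) ?_ (ae_of_all _ rot)).imp (fin A hA) (fin Aᶜ hA.compl)
  filter_upwards [quarter] with s hs
  have h0 := exp_ne_zero (s * I)
  have k := di_plane (D := {z | N (qz z (conj (exp (s * I)))) ∈ A})
    (D' := {z | N (qz z (conj (I * exp (s * I)))) ∈ A})
    (meas_N (f := fun z => qz z _) (by fun_prop) hA)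
    (by
      filter_upwards [ae_mul (inv_ne_zero h0) hs] with z hz
      rwa [mul_inv_cancel_left₀ h0] at hz)
    (di_line hA h3 (by simp)) (di_line hA h3 (by simp))
  exact k.imp (ae_mul h0) (ae_mul h0)

lemma di_gen {A : Set G} (hA : MeasurableSet A) {b : G}
    (hb : ∀ r : ℚ, (b : ℍ).re ≠ Real.cos (r * π)) (h1 : ∀ x ∈ A, x * b ∈ A)
    (h3 : ∀ x ∈ A, x * x ∈ A) : Di hm (· ∈ A) := by
  obtain ⟨X, t, rfl, -⟩ := polar b
  obtain ⟨g, rfl⟩ := exists_cj X
  have ht : ∀ r : ℚ, t ≠ r * π := fun r h => hb r (by rw [re_qq, h])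
  rw [qq_cj] at h1
  have k := di_one (A := {x | g * x * g⁻¹ ∈ A})
    (((measurable_const_mul g).mul_const g⁻¹) hA) ht
    (fun x hx => by have := h1 _ hx; simpa [mul_assoc] using this)
    (fun x hx => by have := h3 _ hx; simpa [mul_assoc] using this)
  have := k.comp (((measurePreserving_mul_right hm g).comp
    (measurePreserving_mul_left hm g⁻¹)).quasiMeasurePreserving)
  simpa [mul_assoc] using this

theorem erg {m : ℕ} (hm2 : 2 ≤ m) {P : Set (Fin m → G)} (hP : MeasurableSet P)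
    (h1 : ∀ a ∈ P, ∀ i j, update a i (a i * a j) ∈ P) :
    Di (Measure.pi fun _ : Fin m => hm) (· ∈ P) := by
  refine di_pi hm m P hP fun i => ?_
  have : Nontrivial (Fin m) := Fin.nontrivial_iff_two_le.mpr hm2
  obtain ⟨j, hj⟩ := exists_ne i
  have h := (measurePreserving_eval (fun _ : Fin m => hm) j).quasiMeasurePreserving.ae
    (ae_all_iff.mpr fun r : ℚ => ae_re_ne (Real.cos (r * π)))
  filter_upwards [h] with a ha
  refine di_gen (A := {x | update a i x ∈ P}) (measurable_update a hP) ha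
    (fun x hx => ?_) fun x hx => ?_
  · simpa [update_of_ne hj] using h1 _ hx i j
  · simpa using h1 _ hx i i

end Pool.Agent.MP_9bb777_an.ZO
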