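import Pool.Agent.MP_9bb777_an.ZO.One

/-! The moves `a i ↦ a i * a j` pull null sets back to null sets; the descendants of a tuple. -/

namespace Pool.Agent.MP_9bb777_an.ZO

open NG MeasureTheory Set Filter Quaternion Function

lemma ae_sq {B : Set G} (hB : MeasurableSet B) (h : ∀ᵐ g ∂hm, g ∈ B) : ∀ᵐ g ∂hm, g * g ∈ B := by
  let _ : MeasurableSpace ℍ := borel ℍ
  have : BorelSpace ℍ := ⟨rfl⟩
  have h0 : ∀ᵐ x : ℍ, x ≠ 0 := compl_mem_ae_iff.mpr (measure_singleton (0 : ℍ))
  have key : ∀ B : Set G, MeasurableSet B → ((∀ᵐ g ∂hm, g ∈ B) ↔ ∀ᵐ x : ℍ, N x ∈ B) := by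
    intro B hB
    have sw := Measure.ae_ae_comm (μ := hm) (ν := volume)
      (p := fun (g : G) (x : ℍ) => N (g * x) ∈ B)
      (meas_N (f := fun y : G × ℍ => (y.1 : ℍ) * y.2) (by fun_prop) hB)
    have lin : ∀ (g : G) {q : ℍ → Prop}, (∀ᵐ x, q x) → ∀ᵐ x : ℍ, q (g * x) := fun g q hq =>
      ae_lin (LinearMap.mulLeft ℝ (g : ℍ)) (mul_left_surjective₀ (ne0 g)) hq
    constructor
    · intro h
      obtain ⟨g, hg⟩ := (sw.mpr (h0.mono fun x hx => by
        filter_upwards [(measurePreserving_mul_right hm (N x)).quasiMeasurePreserving.ae h]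
          with g hg
        rwa [N_mul (ne0 _) hx, N_coe])).exists
      filter_upwards [lin g⁻¹ hg] with x hx
      rwa [← mul_assoc, ← coe_mulG, mul_inv_cancel, coe_oneG, one_mul] at hx
    · intro h
      obtain ⟨x, hx, hx0⟩ := ((sw.mp (ae_of_all _ fun g => lin g h)).and h0).exists
      filter_upwards [(measurePreserving_mul_right hm (N x)⁻¹).quasiMeasurePreserving.ae hx]
        with g hg
      rwa [N_mul (ne0 _) hx0, N_coe, inv_mul_cancel_right] at hg
  have h1 := addHaar_image_eq_zero_of_differentiableOn_of_addHaar_eq_zero volume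
    (f := fun y : ℍ => y + ‖y‖ • (1 : ℍ)) (s := {y | ¬N y ∈ B} \ {0})
    (fun y hy => (differentiableAt_id.add
      ((differentiableAt_id.norm ℝ hy.2).smul_const _)).differentiableWithinAt)
    (measure_mono_null sdiff_subset (ae_iff.mp ((key B hB).mp h)))
  have h2 : ∀ᵐ x : ℍ, 0 < x.re → N (x * x) ∈ B := by
    filter_upwards [measure_eq_zero_iff_ae_notMem.mp h1] with x hx hp
    by_contra hc
    have hx0 : x ≠ 0 := fun e => by simp [e] at hp
    have hr : 0 < (2 * x.re)⁻¹ := by positivity
    refine hx ⟨(2 * x.re)⁻¹ • (x * x), ⟨by rwa [mem_ofPred_eq, N_smul hr],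
      smul_ne_zero hr.ne' (mul_ne_zero hx0 hx0)⟩, ?_⟩
    have e : x * x + normSq x • (1 : ℍ) = (2 * x.re) • x := by
      rw [normSq_def']; ext <;> simp <;> ring
    change _ + _ = _
    rw [norm_smul, Real.norm_of_nonneg hr.le, norm_mul, ← normSq_eq_norm_mul_self, mul_smul,
      ← smul_add, e, inv_smul_smul₀ (by positivity)]
  have h3 := (key {g : G | (g : ℍ).re ≠ 0} (isOpen_ne_fun
    (continuous_re.comp continuous_subtype_val) continuous_const).measurableSet).mp (ae_re_ne 0)
  refine (key {g | g * g ∈ B} ((measurable_id.mul measurable_id) hB)).mpr ?_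
  filter_upwards [h0, h2, (Measure.measurePreserving_neg volume).quasiMeasurePreserving.ae h2, h3]
    with x hx a b c
  rw [← N_mul hx hx]
  have : x.re ≠ 0 := fun e => c (by rw [coe_N hx, re_smul, e, smul_zero])
  rcases this.lt_or_gt with k | k
  · simpa using b (by simpa using k)
  · exact a k

lemma mp_update {X : Type*} [MeasurableSpace X] (μ : Measure X) [IsProbabilityMeasure μ] {m : ℕ}
    (i : Fin m) : MeasurePreserving (fun y : (Fin m → X) × X => update y.1 i y.2)
      ((Measure.pi fun _ => μ).prod μ) (Measure.pi fun _ => μ) := by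
  refine ⟨measurable_update', (Measure.pi_eq fun s hs => ?_).symm⟩
  have : (fun y : (Fin m → X) × X => update y.1 i y.2) ⁻¹' Set.pi univ s =
      Set.pi univ (update s i univ) ×ˢ s i := by
    ext ⟨a, x⟩
    simp only [mem_preimage, mem_univ_pi, mem_prod]
    rw [forall_update_iff a (fun k y => y ∈ s k), forall_update_iff s (fun k t => a k ∈ t)]
    tauto
  rw [Measure.map_apply measurable_update' (MeasurableSet.univ_pi hs), this, Measure.prod_prod,
    Measure.pi_pi, ← Finset.mul_prod_erase _ _ (Finset.mem_univ i),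
    ← Finset.mul_prod_erase _ (fun k => μ (s k)) (Finset.mem_univ i), update_self, measure_univ,
    one_mul, mul_comm]
  congr 1
  exact Finset.prod_congr rfl fun k hk => by rw [update_of_ne (Finset.ne_of_mem_erase hk)]

/-- one move -/
def mv {K : Type} [Group K] {m : ℕ} (a : Fin m → K) (p : Fin m × Fin m) : Fin m → K :=
  update a p.1 (a p.1 * a p.2)

lemma continuous_mv {K : Type} [Group K] [TopologicalSpace K] [IsTopologicalGroup K] {m : ℕ}
    (L : List (Fin m × Fin m)) : Continuous fun a : Fin m → K => L.foldl mv a := by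
  induction L with
  | nil => exact continuous_id
  | cons p L ih => exact ih.comp (continuous_id.update p.1 (by fun_prop))

lemma reach_iff {K : Type} [Group K] {m : ℕ} {a b : Fin m → K} :
    Relation.ReflTransGen (fun b c => ∃ i j, c = update b i (b i * b j)) a b ↔
      ∃ L : List (Fin m × Fin m), b = L.foldl mv a := by
  constructor
  · intro h
    induction h with
    | refl => exact ⟨[], rfl⟩
    | tail _ h ih =>
      obtain ⟨L, rfl⟩ := ih
      obtain ⟨i, j, rfl⟩ := h
      exact ⟨L ++ [(i, j)], by rw [List.foldl_append]; rfl⟩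
  · rintro ⟨L, rfl⟩
    induction L generalizing a with
    | nil => exact .refl
    | cons p L ih => exact .head ⟨p.1, p.2, rfl⟩ ih

lemma ae_mv {m : ℕ} {S : Set (Fin m → G)} (hS : MeasurableSet S)
    (h : ∀ᵐ a ∂(Measure.pi fun _ => hm), a ∈ S) (p : Fin m × Fin m) :
    ∀ᵐ a ∂(Measure.pi fun _ => hm), mv a p ∈ S := by
  obtain ⟨i, j⟩ := p
  have U := mp_update hm i
  have hT : MeasurableSet {a : Fin m → G | mv a (i, j) ∈ S} :=
    (continuous_mv [(i, j)]).measurable hS
  rw [← U.map_eq, ae_map_iff U.measurable.aemeasurable hT]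
  refine (Measure.ae_prod_iff_ae_ae (U.measurable hT)).mpr ?_
  filter_upwards [Measure.ae_ae_of_ae_prod (U.quasiMeasurePreserving.ae h)] with a ha
  by_cases e : j = i
  · simpa [mv, e] using ae_sq (B := {x | update a i x ∈ S}) (measurable_update a hS) ha
  · simpa [mv, e] using (measurePreserving_mul_right hm (a j)).quasiMeasurePreserving.ae ha

theorem desc_iff {m : ℕ} (hm2 : 2 ≤ m) {S : Set (Fin m → G)} (hS : MeasurableSet S) :
    (∀ᵐ a ∂(Measure.pi fun _ => hm), a ∈ S) ↔
      ¬∀ᵐ a ∂(Measure.pi fun _ => hm), ¬∀ L : List (Fin m × Fin m), L.foldl mv a ∈ S := by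
  constructor
  · intro h k
    have : ∀ L : List (Fin m × Fin m), ∀ᵐ a ∂(Measure.pi fun _ => hm), L.foldl mv a ∈ S := by
      intro L
      induction L with
      | nil => exact h
      | cons p L ih => exact ae_mv ((continuous_mv L).measurable hS) ih p
    obtain ⟨a, h1, h2⟩ := ((ae_all_iff.mpr this).and k).exists
    exact h2 h1
  · intro h
    have k := erg hm2 (P := {a | ∀ L : List (Fin m × Fin m), L.foldl mv a ∈ S}) (by
      simp only [ofPred_forall]
      exact MeasurableSet.iInter fun L => (continuous_mv L).measurable hS)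
      fun a ha i j L => ha ((i, j) :: L)
    filter_upwards [k.resolve_right h] with a ha using ha []

end Pool.Agent.MP_9bb777_an.ZO
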